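import Mathlib

/-!
# Binomial coefficients with integer lower index, and the `H`-lemma
-/

set_option autoImplicit false

namespace Pool.Agent.K7.H42.TD

/-- binomial coefficients with an integer as the lower index -/
noncomputable def cz (t : ℕ) (j : ℤ) : ℝ := if 0 ≤ j then ((t.choose j.toNat : ℕ) : ℝ) else 0

theorem cz_nat (t j : ℕ) : cz t (j : ℤ) = (t.choose j : ℝ) := by
  simp [cz]

theorem cz_neg (t : ℕ) {j : ℤ} (h : j < 0) : cz t j = 0 := by
  unfold cz; rw [if_neg (by omega)]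

theorem cz_nonneg (t : ℕ) (j : ℤ) : 0 ≤ cz t j := by
  unfold cz; split_ifs <;> positivity

theorem cz_succ (t : ℕ) (j : ℤ) : cz (t + 1) j = cz t j + cz t (j - 1) := by
  rcases lt_trichotomy j 0 with h | h | h
  · rw [cz_neg _ h, cz_neg _ h, cz_neg _ (by omega : j - 1 < 0)]; simp
  · subst h
    rw [cz_neg _ (by omega : (0 : ℤ) - 1 < 0)]
    simp [cz]
  · obtain ⟨k, rfl⟩ : ∃ k : ℕ, j = (k : ℤ) + 1 := ⟨(j - 1).toNat, by omega⟩
    have e1 : ((k : ℤ) + 1) = ((k + 1 : ℕ) : ℤ) := by push_cast; ring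
    have e2 : ((k : ℤ) + 1 - 1) = ((k : ℕ) : ℤ) := by ring
    rw [e2, e1, cz_nat, cz_nat, cz_nat, Nat.choose_succ_succ]
    push_cast; ring

theorem cz_absorb (t : ℕ) (j : ℤ) : ((t : ℝ) + 1) * cz t (j - 1) = j * cz (t + 1) j := by
  rcases lt_trichotomy j 0 with h | h | h
  · rw [cz_neg _ h, cz_neg _ (by omega : j - 1 < 0)]; simp
  · subst h
    rw [cz_neg _ (by omega : (0 : ℤ) - 1 < 0)]
    simp
  · obtain ⟨k, rfl⟩ : ∃ k : ℕ, j = (k : ℤ) + 1 := ⟨(j - 1).toNat, by omega⟩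
    have e1 : ((k : ℤ) + 1) = ((k + 1 : ℕ) : ℤ) := by push_cast; ring
    have e2 : ((k : ℤ) + 1 - 1) = ((k : ℕ) : ℤ) := by ring
    rw [e2, e1, cz_nat, cz_nat]
    have := Nat.add_one_mul_choose_eq t k
    have h2 : ((t : ℝ) + 1) * (t.choose k : ℝ) = ((t + 1).choose (k + 1) : ℝ) * ((k : ℝ) + 1) := by
      exact_mod_cast this
    rw [h2]; push_cast; ring

theorem cz_absorb' (t : ℕ) (j : ℤ) : ((t : ℝ) + 1) * cz t j = (t + 1 - j) * cz (t + 1) j := by
  have h1 := cz_absorb t j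
  have h2 := cz_succ t j
  have : ((t : ℝ) + 1) * cz t j = ((t : ℝ) + 1) * cz (t + 1) j - ((t : ℝ) + 1) * cz t (j - 1) := by
    rw [h2]; ring
  rw [this, h1]; ring

theorem cz_two_low (t : ℕ) (j : ℤ) :
    ((t : ℝ) + 2) * (t + 1) * cz t (j - 2) = j * (j - 1) * cz (t + 2) j := by
  have h1 := cz_absorb t (j - 1)
  have h2 := cz_absorb (t + 1) j
  have e : j - 1 - 1 = j - 2 := by ring
  rw [e] at h1
  push_cast at h1 h2
  have e2 : t + 1 + 1 = t + 2 := rfl
  rw [e2] at h2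
  calc ((t : ℝ) + 2) * (t + 1) * cz t (j - 2) = (t + 2) * (((t : ℝ) + 1) * cz t (j - 2)) := by ring
    _ = (t + 2) * (((j : ℝ) - 1) * cz (t + 1) (j - 1)) := by rw [h1]
    _ = (j - 1) * (((t : ℝ) + 1 + 1) * cz (t + 1) (j - 1)) := by ring
    _ = (j - 1) * (j * cz (t + 2) j) := by rw [h2]
    _ = _ := by ring

theorem cz_two_high (t : ℕ) (j : ℤ) :
    ((t : ℝ) + 2) * (t + 1) * cz t j = (t + 2 - j) * (t + 1 - j) * cz (t + 2) j := by
  have h1 := cz_absorb' t j
  have h2 := cz_absorb' (t + 1) j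
  push_cast at h1 h2
  have e2 : t + 1 + 1 = t + 2 := rfl
  rw [e2] at h2
  calc ((t : ℝ) + 2) * (t + 1) * cz t j = (t + 2) * (((t : ℝ) + 1) * cz t j) := by ring
    _ = (t + 2) * (((t : ℝ) + 1 - j) * cz (t + 1) j) := by rw [h1]
    _ = (t + 1 - j) * (((t : ℝ) + 1 + 1) * cz (t + 1) j) := by ring
    _ = (t + 1 - j) * (((t : ℝ) + 1 + 1 - j) * cz (t + 2) j) := by rw [h2]
    _ = _ := by ring

theorem cz_two_mid (t : ℕ) (j : ℤ) :
    ((t : ℝ) + 2) * (t + 1) * cz t (j - 1) = j * (t + 2 - j) * cz (t + 2) j := by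
  have h1 := cz_absorb t j
  have h2 := cz_absorb' (t + 1) j
  push_cast at h1 h2
  have e2 : t + 1 + 1 = t + 2 := rfl
  rw [e2] at h2
  calc ((t : ℝ) + 2) * (t + 1) * cz t (j - 1) = (t + 2) * (((t : ℝ) + 1) * cz t (j - 1)) := by ring
    _ = (t + 2) * ((j : ℝ) * cz (t + 1) j) := by rw [h1]
    _ = j * (((t : ℝ) + 1 + 1) * cz (t + 1) j) := by ring
    _ = j * (((t : ℝ) + 1 + 1 - j) * cz (t + 2) j) := by rw [h2]
    _ = _ := by ring

theorem cz_two_succ (t : ℕ) (j : ℤ) :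
    cz (t + 2) j = cz t j + 2 * cz t (j - 1) + cz t (j - 2) := by
  have h1 := cz_succ (t + 1) j
  have h2 := cz_succ t j
  have h3 := cz_succ t (j - 1)
  have e : j - 1 - 1 = j - 2 := by ring
  rw [e] at h3
  have e2 : t + 1 + 1 = t + 2 := rfl
  rw [e2] at h1
  rw [h1, h2, h3]; ring

/-- weighted Vandermonde sums -/
noncomputable def Hz (z : ℝ) : ℕ → ℕ → ℤ → ℝ
  | 0, t, j => cz t j
  | s + 1, t, j => Hz z s t j + z * Hz z s t (j - 1)

theorem Hz_succ_right (z : ℝ) (s t : ℕ) (j : ℤ) : Hz z s (t + 1) j = Hz z s t j + Hz z s t (j - 1) := by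
  induction s generalizing j with
  | zero => exact cz_succ t j
  | succ s ih =>
    simp only [Hz]
    rw [ih j, ih (j - 1)]; ring

theorem Hz_le {y p : ℝ} (hy : 0 ≤ y) (hp0 : 0 ≤ p) (hp1 : p ≤ 1) (s : ℕ) :
    ∀ (t : ℕ) (j : ℤ), (j : ℝ) ≤ p * (s + t) → Hz (1 + y) s t j ≤ cz (s + t) j * (1 + y * p) ^ s := by
  induction s with
  | zero => intro t j _; simp [Hz]
  | succ s ih =>
    intro t j hj
    push_cast at hj
    have e : Hz (1 + y) (s + 1) t j = Hz (1 + y) s (t + 1) j + y * Hz (1 + y) s t (j - 1) := by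
      rw [Hz_succ_right]
      simp only [Hz]
      ring
    have h1 := ih (t + 1) j (by push_cast; linarith)
    have h2 := ih t (j - 1) (by push_cast; nlinarith)
    have e1 : s + (t + 1) = s + t + 1 := by ring
    have e2 : s + 1 + t = s + t + 1 := by ring
    rw [e1] at h1
    have h3 := cz_absorb (s + t) j
    push_cast at h3
    have hpos : (0 : ℝ) < (s : ℝ) + t + 1 := by positivity
    have hc := cz_nonneg (s + t + 1) j
    have h4 : cz (s + t) (j - 1) ≤ p * cz (s + t + 1) j := by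
      have : ((s : ℝ) + t + 1) * cz (s + t) (j - 1) ≤ ((s : ℝ) + t + 1) * (p * cz (s + t + 1) j) := by
        rw [h3]
        have := mul_le_mul_of_nonneg_right hj hc
        nlinarith
      exact le_of_mul_le_mul_left this hpos
    have hyp : 0 ≤ 1 + y * p := by positivity
    have hpw : 0 ≤ (1 + y * p) ^ s := by positivity
    rw [e, e2, pow_succ]
    calc Hz (1 + y) s (t + 1) j + y * Hz (1 + y) s t (j - 1)
        ≤ cz (s + t + 1) j * (1 + y * p) ^ s + y * (cz (s + t) (j - 1) * (1 + y * p) ^ s) := by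
          have := mul_le_mul_of_nonneg_left h2 hy
          linarith
      _ ≤ cz (s + t + 1) j * (1 + y * p) ^ s + y * (p * cz (s + t + 1) j * (1 + y * p) ^ s) := by
          have := mul_le_mul_of_nonneg_left (mul_le_mul_of_nonneg_right h4 hpw) hy
          linarith
      _ = cz (s + t + 1) j * ((1 + y * p) ^ s * (1 + y * p)) := by ring

end Pool.Agent.K7.H42.TD
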