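import Pool.Agent.K7.H66.TD.Base
import Pool.Agent.K7.H42.TD.Bin

/-!
# Project TD, job SEG1: the two-step inequality and the deep lemma
-/

set_option autoImplicit false

namespace Pool.Agent.K7.H42.TD

open Finset Pool.Agent.K7.H66.TD

/-- amplitudes with an integer as index -/
noncomputable def Az (n t : ℕ) (j : ℤ) (a : ZMod (3 ^ n)) : ℂ := if 0 ≤ j then Amp n t j.toNat a else 0

theorem Az_nat (n t j : ℕ) (a : ZMod (3 ^ n)) : Az n t (j : ℤ) a = Amp n t j a := by simp [Az]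

theorem Az_neg (n t : ℕ) {j : ℤ} (h : j < 0) (a : ZMod (3 ^ n)) : Az n t j a = 0 := by
  unfold Az; rw [if_neg (by omega)]

theorem Az_succ (n t : ℕ) (j : ℤ) (a : ZMod (3 ^ n)) :
    Az n (t + 1) j a = Az n t j (a * h2 n) + ee n (a * h2 n) * Az n t (j - 1) (3 * a * h2 n) := by
  rcases lt_trichotomy j 0 with h | h | h
  · rw [Az_neg _ _ h, Az_neg _ _ h, Az_neg _ _ (by omega : j - 1 < 0)]; simp
  · subst h
    rw [Az_neg _ _ (by omega : (0 : ℤ) - 1 < 0)]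
    have := Amp_succ_zero n t a
    simp only [Az, le_refl, if_true, Int.toNat_zero, mul_zero, add_zero]
    exact this
  · obtain ⟨k, rfl⟩ : ∃ k : ℕ, j = (k : ℤ) + 1 := ⟨(j - 1).toNat, by omega⟩
    have e1 : ((k : ℤ) + 1) = ((k + 1 : ℕ) : ℤ) := by push_cast; ring
    have e2 : ((k : ℤ) + 1 - 1) = ((k : ℕ) : ℤ) := by ring
    rw [e2, e1, Az_nat, Az_nat, Az_nat]
    exact Amp_succ_succ n t k a

theorem norm_Az_le (n t : ℕ) (j : ℤ) (a : ZMod (3 ^ n)) : ‖Az n t j a‖ ≤ cz t j := by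
  by_cases h : 0 ≤ j
  · obtain ⟨k, rfl⟩ := Int.eq_ofNat_of_zero_le h
    rw [Az_nat, cz_nat]
    exact norm_Amp_le n t k a
  · rw [Az_neg _ _ (by omega), cz_neg _ (by omega)]; simp

theorem two_Az (n t : ℕ) (j : ℤ) (a : ZMod (3 ^ n)) :
    ‖Az n (t + 2) j a‖ ≤ ‖Az n t j (a * h2 n ^ 2)‖
      + ‖1 + ee n (a * h2 n ^ 2)‖ * ‖Az n t (j - 1) (3 * a * h2 n ^ 2)‖
      + ‖Az n t (j - 2) (9 * a * h2 n ^ 2)‖ := by
  have e0 : t + 2 = t + 1 + 1 := rfl
  have e1 : Az n (t + 2) j a = Az n t j (a * h2 n ^ 2)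
      + ee n (a * h2 n ^ 2) * (1 + ee n (a * h2 n ^ 2)) * Az n t (j - 1) (3 * a * h2 n ^ 2)
      + ee n (a * h2 n) * ee n (3 * a * h2 n * h2 n) * Az n t (j - 2) (9 * a * h2 n ^ 2) := by
    rw [e0, Az_succ, Az_succ, Az_succ]
    have r1 : a * h2 n * h2 n = a * h2 n ^ 2 := by ring
    have r2 : 3 * (a * h2 n) * h2 n = 3 * a * h2 n ^ 2 := by ring
    have r3 : 3 * a * h2 n * h2 n = 3 * a * h2 n ^ 2 := by ring
    have r4 : 3 * (3 * a * h2 n) * h2 n = 9 * a * h2 n ^ 2 := by ring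
    have r5 : j - 1 - 1 = j - 2 := by ring
    have r6 : ee n (a * h2 n) = ee n (a * h2 n ^ 2) * ee n (a * h2 n ^ 2) := by
      rw [← ee_add]
      congr 1
      have := h2_mul n
      linear_combination (-(a * h2 n)) * this
    rw [r1, r2, r3, r4, r5, r6]
    ring
  rw [e1]
  refine (norm_add_le _ _).trans ?_
  refine add_le_add ((norm_add_le _ _).trans ?_) ?_
  · refine add_le_add le_rfl ?_
    rw [norm_mul, norm_mul, norm_ee, one_mul]
  · rw [norm_mul, norm_mul, norm_ee, norm_ee, one_mul, one_mul]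

theorem two : StTwo := by
  intro n t j a
  have h := two_Az n t (j : ℤ) a
  rw [Az_nat, Az_nat] at h
  refine h.trans ?_
  refine add_le_add (add_le_add le_rfl ?_) ?_
  · split_ifs with h1
    · have : ((j : ℤ) - 1) = ((j - 1 : ℕ) : ℤ) := by omega
      rw [this, Az_nat]
    · rw [Az_neg _ _ (by omega)]; simp
  · split_ifs with h1
    · have : ((j : ℤ) - 2) = ((j - 2 : ℕ) : ℤ) := by omega
      rw [this, Az_nat]
    · rw [Az_neg _ _ (by omega)]; simp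

theorem deep_ind (n : ℕ) {z : ℝ} (hz : 0 ≤ z) (s : ℕ) : ∀ (t : ℕ) (j : ℤ) (a : ZMod (3 ^ n)) (κ : ℝ), 0 ≤ κ →
    (∀ i : ℕ, ‖1 + ee n (3 ^ i * a * h2 n ^ s * h2 n ^ 2)‖ ≤ κ * z ^ i) →
    ‖Az n (t + 2 + s) j a‖ ≤ cz (t + s) j + cz (t + s) (j - 2) + κ * Hz z s t (j - 1) := by
  induction s with
  | zero =>
    intro t j a κ hκ h
    have h0 := h 0
    simp only [pow_zero, mul_one, one_mul] at h0
    have h1 := two_Az n t j a
    simp only [add_zero, Hz]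
    have h2' := norm_Az_le n t j (a * h2 n ^ 2)
    have h3 := norm_Az_le n t (j - 1) (3 * a * h2 n ^ 2)
    have h4 := norm_Az_le n t (j - 2) (9 * a * h2 n ^ 2)
    have h5 : ‖1 + ee n (a * h2 n ^ 2)‖ * ‖Az n t (j - 1) (3 * a * h2 n ^ 2)‖ ≤ κ * cz t (j - 1) :=
      mul_le_mul h0 h3 (norm_nonneg _) hκ
    linarith
  | succ s ih =>
    intro t j a κ hκ h
    have e0 : t + 2 + (s + 1) = t + 2 + s + 1 := by ring
    have e1 : t + (s + 1) = t + s + 1 := by ring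
    rw [e0, e1, Az_succ]
    have i1 := ih t j (a * h2 n) κ hκ (by
      intro i
      have := h i
      have e : 3 ^ i * (a * h2 n) * h2 n ^ s * h2 n ^ 2 = 3 ^ i * a * h2 n ^ (s + 1) * h2 n ^ 2 := by ring
      rw [e]; exact this)
    have i2 := ih t (j - 1) (3 * a * h2 n) (κ * z) (mul_nonneg hκ hz) (by
      intro i
      have := h (i + 1)
      have e : 3 ^ i * (3 * a * h2 n) * h2 n ^ s * h2 n ^ 2 = 3 ^ (i + 1) * a * h2 n ^ (s + 1) * h2 n ^ 2 := by ring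
      rw [e]
      refine this.trans (le_of_eq ?_)
      ring)
    have e3 : j - 1 - 2 = j - 2 - 1 := by ring
    have e4 : j - 1 - 1 = j - 2 := by ring
    have e5 : Hz z (s + 1) t (j - 1) = Hz z s t (j - 1) + z * Hz z s t (j - 2) := by
      simp only [Hz]; rw [e4]
    rw [e5, cz_succ (t + s) j, cz_succ (t + s) (j - 2)]
    rw [e3, e4] at i2
    calc ‖Az n (t + 2 + s) j (a * h2 n) + ee n (a * h2 n) * Az n (t + 2 + s) (j - 1) (3 * a * h2 n)‖
        ≤ ‖Az n (t + 2 + s) j (a * h2 n)‖ + ‖Az n (t + 2 + s) (j - 1) (3 * a * h2 n)‖ := by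
          refine (norm_add_le _ _).trans (add_le_add le_rfl ?_)
          rw [norm_mul, norm_ee, one_mul]
      _ ≤ _ := by
          refine (add_le_add i1 i2).trans (le_of_eq ?_)
          ring

/-- `1 + e(o/2)` for odd `o` -/
theorem norm_odd (n : ℕ) (o : ℤ) (ho : Odd o) :
    ‖1 + ee n ((o : ZMod (3 ^ n)) * h2 n)‖ ≤ Real.sqrt (2 * Real.pi * |(o : ℝ)| / 3 ^ n) := by
  obtain ⟨k, hk⟩ : ∃ k : ℤ, o + 3 ^ n = 2 * k := by
    have h3 : Odd ((3 : ℤ) ^ n) := Odd.pow (by decide)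
    obtain ⟨k, hk⟩ := (ho.add_odd h3)
    exact ⟨k, by rw [hk]; ring⟩
  have e1 : (o : ZMod (3 ^ n)) * h2 n = ((k : ℤ) : ZMod (3 ^ n)) := by
    have h0 : ((3 : ZMod (3 ^ n)) ^ n) = 0 := by
      have : ((3 ^ n : ℕ) : ZMod (3 ^ n)) = 0 := ZMod.natCast_self _
      push_cast at this; exact this
    have : (o : ZMod (3 ^ n)) = 2 * (k : ZMod (3 ^ n)) := by
      have h1 : ((o + 3 ^ n : ℤ) : ZMod (3 ^ n)) = ((2 * k : ℤ) : ZMod (3 ^ n)) := by rw [hk]
      push_cast at h1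
      rw [h0, add_zero] at h1
      exact h1
    rw [this]
    have h2m := h2_mul n
    linear_combination (k : ZMod (3 ^ n)) * h2m
  have h3pos : (0 : ℝ) < 3 ^ n := by positivity
  have e2 : ee n ((o : ZMod (3 ^ n)) * h2 n) = - Complex.exp (Complex.I * ((Real.pi * o / 3 ^ n : ℝ) : ℂ)) := by
    rw [e1, ee_int]
    have hkr : (k : ℂ) = ((o : ℂ) + 3 ^ n) / 2 := by
      have : ((o : ℂ) + 3 ^ n) = 2 * k := by exact_mod_cast hk
      rw [this]; ring
    rw [hkr]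
    have h3c : (3 : ℂ) ^ n ≠ 0 := pow_ne_zero _ (by norm_num)
    have : 2 * (Real.pi : ℂ) * Complex.I * (((o : ℂ) + 3 ^ n) / 2) / 3 ^ n
        = Complex.I * ((Real.pi * o / 3 ^ n : ℝ) : ℂ) + Real.pi * Complex.I := by
      push_cast
      field_simp
    rw [this, Complex.exp_add, Complex.exp_pi_mul_I]
    ring
  rw [e2]
  set θ : ℝ := Real.pi * o / 3 ^ n with hθ
  have e3 : ‖1 + -Complex.exp (Complex.I * (θ : ℂ))‖ = ‖2 * Real.sin (θ / 2)‖ := by
    have := Complex.norm_exp_I_mul_ofReal_sub_one θ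
    rw [← this, ← norm_neg]
    congr 1
    ring
  rw [e3, Real.norm_eq_abs, abs_mul, abs_two]
  apply Real.le_sqrt_of_sq_le
  have hs1 : |Real.sin (θ / 2)| ≤ 1 := Real.abs_sin_le_one _
  have hs2 : |Real.sin (θ / 2)| ≤ |θ / 2| := Real.abs_sin_le_abs
  have hs0 := abs_nonneg (Real.sin (θ / 2))
  have e4 : 2 * Real.pi * |(o : ℝ)| / 3 ^ n = 4 * |θ / 2| := by
    rw [hθ, abs_div, abs_div, abs_mul, abs_of_pos Real.pi_pos, abs_two, abs_of_pos h3pos]
    ring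
  rw [e4]
  nlinarith

theorem deep_Az (n t v : ℕ) (j : ℤ) (a : ZMod (3 ^ n)) (b b' : ℤ) (hab : a * h2 n ^ 2 = (b : ZMod (3 ^ n)))
    (hb : b = 2 ^ v * b') (ho : Odd b') (hj : 1000 * ((j : ℝ) - 1) ≤ 565 * ((t : ℝ) + (v + 1))) :
    ‖Az n (t + 2 + (v + 1)) j a‖ ≤ cz (t + (v + 1)) j + cz (t + (v + 1)) (j - 2)
      + Real.sqrt (4 * Real.pi * |(b : ℝ)| / 3 ^ n) * cz (t + (v + 1)) (j - 1) := by
  have h3pos : (0 : ℝ) < 3 ^ n := by positivity
  have hz1 : (1 : ℝ) ≤ Real.sqrt 3 := by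
    rw [Real.one_le_sqrt]; norm_num
  have hz2 : Real.sqrt 3 ≤ 1.7320509 := by
    rw [Real.sqrt_le_left (by norm_num)]; norm_num
  set κ : ℝ := Real.sqrt (2 * Real.pi * |(b' : ℝ)| / 3 ^ n) with hκ
  have h1 := deep_ind n (Real.sqrt_nonneg 3) (v + 1) t j a κ (Real.sqrt_nonneg _) (by
    intro i
    have e1 : 3 ^ i * a * h2 n ^ (v + 1) * h2 n ^ 2 = ((3 ^ i * b' : ℤ) : ZMod (3 ^ n)) * h2 n := by
      have h5 : a * h2 n ^ 2 = 2 ^ v * (b' : ZMod (3 ^ n)) := by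
        rw [hab, hb]; push_cast; ring
      have h6 := two_pow_h2 n v
      have : 3 ^ i * a * h2 n ^ (v + 1) * h2 n ^ 2 = 3 ^ i * (a * h2 n ^ 2) * h2 n ^ v * h2 n := by ring
      rw [this, h5]
      push_cast
      linear_combination (3 ^ i * (b' : ZMod (3 ^ n)) * h2 n) * h6
    rw [e1]
    have ho' : Odd ((3 : ℤ) ^ i * b') := (Odd.pow (by decide)).mul ho
    refine (norm_odd n _ ho').trans (le_of_eq ?_)
    have e2 : 2 * Real.pi * |(((3 : ℤ) ^ i * b' : ℤ) : ℝ)| / 3 ^ n = (2 * Real.pi * |(b' : ℝ)| / 3 ^ n) * 3 ^ i := by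
      push_cast
      rw [abs_mul, abs_of_pos (by positivity : (0 : ℝ) < 3 ^ i)]
      ring
    rw [e2, Real.sqrt_mul (by positivity), hκ]
    congr 1
    rw [← Real.sqrt_sq (by positivity : (0 : ℝ) ≤ Real.sqrt 3 ^ i), ← pow_mul, mul_comm i 2, pow_mul,
      Real.sq_sqrt (by norm_num)])
  refine h1.trans ?_
  refine add_le_add le_rfl ?_
  have h2' := Hz_le (y := Real.sqrt 3 - 1) (p := 0.565) (by linarith) (by norm_num) (by norm_num) (v + 1) t (j - 1)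
    (by push_cast; nlinarith)
  have e1 : (1 : ℝ) + (Real.sqrt 3 - 1) = Real.sqrt 3 := by ring
  have e2 : v + 1 + t = t + (v + 1) := by ring
  rw [e1, e2] at h2'
  have h3 : (1 : ℝ) + (Real.sqrt 3 - 1) * 0.565 ≤ Real.sqrt 2 := by
    apply Real.le_sqrt_of_sq_le
    nlinarith
  have h3' : (0 : ℝ) ≤ 1 + (Real.sqrt 3 - 1) * 0.565 := by nlinarith
  have h4 : (1 + (Real.sqrt 3 - 1) * 0.565) ^ (v + 1) ≤ Real.sqrt 2 ^ (v + 1) := pow_le_pow_left₀ h3' h3 _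
  have hc := cz_nonneg (t + (v + 1)) (j - 1)
  have hκ0 : 0 ≤ κ := Real.sqrt_nonneg _
  calc κ * Hz (Real.sqrt 3) (v + 1) t (j - 1)
      ≤ κ * (cz (t + (v + 1)) (j - 1) * (1 + (Real.sqrt 3 - 1) * 0.565) ^ (v + 1)) :=
        mul_le_mul_of_nonneg_left h2' hκ0
    _ ≤ κ * (cz (t + (v + 1)) (j - 1) * Real.sqrt 2 ^ (v + 1)) :=
        mul_le_mul_of_nonneg_left (mul_le_mul_of_nonneg_left h4 hc) hκ0
    _ = (κ * Real.sqrt 2 ^ (v + 1)) * cz (t + (v + 1)) (j - 1) := by ring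
    _ = Real.sqrt (4 * Real.pi * |(b : ℝ)| / 3 ^ n) * cz (t + (v + 1)) (j - 1) := by
        congr 1
        have e3 : Real.sqrt 2 ^ (v + 1) = Real.sqrt (2 ^ (v + 1)) := by
          rw [← Real.sqrt_sq (by positivity : (0 : ℝ) ≤ Real.sqrt 2 ^ (v + 1)), ← pow_mul,
            mul_comm (v + 1) 2, pow_mul, Real.sq_sqrt (by norm_num)]
        rw [e3, hκ, ← Real.sqrt_mul (by positivity)]
        congr 1
        rw [hb]
        push_cast
        rw [abs_mul, abs_of_pos (by positivity : (0 : ℝ) < 2 ^ v), pow_succ]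
        ring

theorem deep : StDeep := by
  intro n t j v a b b' hab hb ho hv hj
  obtain ⟨t', rfl⟩ : ∃ t', t = t' + 2 + (v + 1) := ⟨t - (v + 3), by omega⟩
  have e : t' + 2 + (v + 1) - 2 = t' + (v + 1) := by omega
  rw [e]
  have h := deep_Az n t' v (j : ℤ) a b b' hab hb ho (by push_cast at hj ⊢; linarith)
  rw [Az_nat] at h
  refine h.trans (le_of_eq ?_)
  have c0 : cz (t' + (v + 1)) (j : ℤ) = (chm (t' + (v + 1)) j 0 : ℝ) := by
    rw [cz_nat]; simp [chm]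
  have c1 : cz (t' + (v + 1)) ((j : ℤ) - 1) = (chm (t' + (v + 1)) j 1 : ℝ) := by
    unfold chm
    split_ifs with h1
    · have : ((j : ℤ) - 1) = ((j - 1 : ℕ) : ℤ) := by omega
      rw [this, cz_nat]
    · rw [cz_neg _ (by omega)]; simp
  have c2 : cz (t' + (v + 1)) ((j : ℤ) - 2) = (chm (t' + (v + 1)) j 2 : ℝ) := by
    unfold chm
    split_ifs with h1
    · have : ((j : ℤ) - 2) = ((j - 2 : ℕ) : ℤ) := by omega
      rw [this, cz_nat]
    · rw [cz_neg _ (by omega)]; simp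
  rw [c0, c1, c2]

end Pool.Agent.K7.H42.TD
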